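import Mathlib
import Pool.Agent.Helper111.QI.Series2

set_option autoImplicit false

namespace Pool.Agent.Results.MP_0e32d7_al.IndBase

/-- A quasi-identity: a number `n` of variables, a finite list of words (the premises) and a word
(the conclusion) in `n` variables. -/
abbrev QuasiId := (n : ℕ) × (List (FreeGroup (Fin n)) × FreeGroup (Fin n))

/-- The quasi-identity `q` holds in the group `H`. -/
def Holds (H : Type) [Group H] (q : QuasiId) : Prop :=
  ∀ f : Fin q.1 → H, (∀ p ∈ q.2.1, FreeGroup.lift f p = 1) → FreeGroup.lift f q.2.2 = 1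

/-- Torsion-free groups. -/
def TorsFree (H : Type) [Group H] : Prop := ∀ h : H, h ≠ 1 → ∀ k : ℕ, 0 < k → h ^ k ≠ 1

/-- The quasivariety `qG` contains the free metabelian group `F₂/F₂''`. -/
def FreeMetabelianIn (G : Type) [Group G] : Prop :=
  ∀ q : QuasiId, Holds G q → Holds (FreeGroup (Fin 2) ⧸ derivedSeries (FreeGroup (Fin 2)) 2) q

/-- Some set of quasi-identities defines `qG` among torsion-free groups and is independent
there. -/
def HasIndependentBase (G : Type) [Group G] : Prop :=
  ∃ S : Set QuasiId,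
    (∀ (H : Type) [Group H], TorsFree H →
      ((∀ q ∈ S, Holds H q) ↔ ∀ q : QuasiId, Holds G q → Holds H q)) ∧
    ∀ σ ∈ S, ∃ (H : Type) (_ : Group H), TorsFree H ∧ (∀ q ∈ S, q ≠ σ → Holds H q) ∧ ¬ Holds H σ

/-- `Φ(x)` of order `p^(j+1)` acts without kernel: if the conjugates of `z` by the powers of `x`
commute pairwise, and the product of the conjugates of `z` by `x^(p^j l)`, `0 ≤ l < p`,
is trivial, then `z = 1`. -/
def NoCyclotomic (p j : ℕ) (G : Type) [Group G] : Prop :=
  ∀ z x : G, (∀ a b : ℕ, Commute ((x ^ a)⁻¹ * z * x ^ a) ((x ^ b)⁻¹ * z * x ^ b)) →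
    ((List.range p).map (fun l => (x ^ (p ^ j * l))⁻¹ * z * x ^ (p ^ j * l))).prod = 1 → z = 1

open Pool.Agent.Helper111.QI in
theorem eprop_of (p j : ℕ) (G : Type) [Group G] (hp : 0 < p) (h : NoCyclotomic p j G) :
    EProp p j G := by
  intro z x hcm hn
  have hxN : (x ^ (p ^ (j + 1)))⁻¹ * z * x ^ (p ^ (j + 1)) = z := by
    have := comm_of_nrm p z (x ^ (p ^ j)) hn
    rwa [← pow_mul, ← pow_succ] at this
  have hc := all_comm x z (p ^ (j + 1)) (pow_pos hp _) hcm hxN
  apply h z x
  · intro a b
    have h1 := hc (-(a : ℤ)) (-(b : ℤ))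
    simp only [zpow_neg, neg_neg, zpow_natCast] at h1
    exact h1
  · rw [← hn]
    unfold nrm
    congr 1
    apply List.map_congr_left
    intro l _
    rw [pow_mul]

/-- The condition of the theorem. Either (a) for infinitely many primes `p` there is `j` with
`NoCyclotomic p j G`; or (b) for infinitely many primes `p` the `p`-th roots in `G` are unique;
or `G` is finitely generated and, for some `c`, the quotient `Q = G / ζ_c(G)` by the `c`-th term of
the upper central series (`c = 0` gives `Q = G`) is (c) metabelian, or (d) linear over some field,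
or (e) nilpotent-by-abelian-by-finite with `max-n` (every normal subgroup is the normal closure of
a finite set). -/
def Tame (G : Type) [Group G] : Prop :=
  {p : ℕ | p.Prime ∧ ∃ j, NoCyclotomic p j G}.Infinite ∨
  {p : ℕ | p.Prime ∧ ∀ g h : G, g ^ p = h ^ p → g = h}.Infinite ∨
  (Group.FG G ∧ ∃ c : ℕ,
    derivedSeries (G ⧸ Subgroup.upperCentralSeries G c) 2 = ⊥ ∨
    (∃ (F : Type) (_ : Field F) (n : ℕ)
      (φ : (G ⧸ Subgroup.upperCentralSeries G c) →* GL (Fin n) F), Function.Injective φ) ∨
    ((∀ K : Subgroup (G ⧸ Subgroup.upperCentralSeries G c), K.Normal →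
        ∃ T : Finset (G ⧸ Subgroup.upperCentralSeries G c),
          K = Subgroup.normalClosure (T : Set (G ⧸ Subgroup.upperCentralSeries G c))) ∧
      ∃ G₀ : Subgroup (G ⧸ Subgroup.upperCentralSeries G c), G₀.Normal ∧ G₀.FiniteIndex ∧
        Group.IsNilpotent (⁅G₀, G₀⁆ : Subgroup (G ⧸ Subgroup.upperCentralSeries G c))))

/-- **Independent quasi-identity bases.** Let `G` be a torsion-free group such that `qG` contains
the free metabelian group of rank 2. If `G` is tame, then `qG` has a set of quasi-identities that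
defines it among torsion-free groups and is independent there. -/
theorem result : ∀ (G : Type) [Group G], TorsFree G → FreeMetabelianIn G → Tame G →
    HasIndependentBase G := by
  have h1 : ∀ (G : Type) [Group G], TorsFree G → FreeMetabelianIn G →
      {p : ℕ | p.Prime ∧ ∃ j, NoCyclotomic p j G}.Infinite → HasIndependentBase G := by
    intro G _ hTF hFM hinf
    refine Pool.Agent.Helper111.QI.general G hTF hFM ?_
    apply hinf.mono
    rintro p ⟨hp, j, hj⟩
    exact ⟨hp, j, eprop_of p j G hp.pos hj⟩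
  have h2 : ∀ (G : Type) [Group G], TorsFree G → FreeMetabelianIn G →
      {p : ℕ | p.Prime ∧ ∀ g h : G, g ^ p = h ^ p → g = h}.Infinite → HasIndependentBase G := by
    intro G _ hTF hFM hinf
    refine Pool.Agent.Helper111.QI.general G hTF hFM ?_
    apply hinf.mono
    rintro p ⟨hp, hj⟩
    exact ⟨hp, 0, Pool.Agent.Helper111.QI.EProp_of_unique_roots p hj⟩
  have h3 : ∀ (G : Type) [Group G], TorsFree G → FreeMetabelianIn G →
      (∃ B : ℕ, ∀ p : ℕ, p.Prime → B < p → ∀ z x : G,
        Pool.Agent.Helper111.QI.nrm p z x = 1 → z = 1) → HasIndependentBase G := by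
    intro G _ hTF hFM ⟨B, hB⟩
    refine Pool.Agent.Helper111.QI.general G hTF hFM ?_
    exact Pool.Agent.Helper111.QI.infinite_of_bound B (fun p hp hBp =>
      ⟨0, Pool.Agent.Helper111.QI.EProp_of_nrm p (hB p hp hBp)⟩)
  have hroots : ∀ {Q : Type} [Group Q] (p : ℕ), (∀ g h : Q, g ^ p = h ^ p → g = h) →
      ∀ z x : Q, Pool.Agent.Helper111.QI.nrm p z x = 1 → z = 1 := by
    intro Q _ p h z x hn
    rw [Pool.Agent.Helper111.QI.nrm_eq] at hn
    have h1 : (z * x⁻¹) ^ p = (x⁻¹) ^ p := by
      rw [inv_pow]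
      exact eq_inv_of_mul_eq_one_left hn
    have h2 := h _ _ h1
    simpa using h2
  intro G _ hTF hFM htame
  rcases htame with hinf | hinf | ⟨hfg, c, hmet | hlin | ⟨hmax, G₀, hn, hfi, hnil⟩⟩
  · exact h1 G hTF hFM hinf
  · exact h2 G hTF hFM hinf
  · have : Group.FG (G ⧸ Subgroup.upperCentralSeries G c) := inferInstance
    exact h3 G hTF hFM (Pool.Agent.Helper111.QI.hyper_bound hTF c
      (Pool.Agent.Helper111.QI.metabelian_bound hmet))
  · obtain ⟨F, _, n, φ, hφ⟩ := hlin
    have : Group.FG (G ⧸ Subgroup.upperCentralSeries G c) := inferInstance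
    obtain ⟨B, hB⟩ := Pool.Agent.Helper111.QI.linear_bound φ hφ
    exact h3 G hTF hFM (Pool.Agent.Helper111.QI.hyper_bound hTF c
      ⟨B, fun p hp hBp => hroots p (hB p hp hBp)⟩)
  · have : Group.FG (G ⧸ Subgroup.upperCentralSeries G c) := inferInstance
    exact h3 G hTF hFM (Pool.Agent.Helper111.QI.hyper_bound hTF c
      (Pool.Agent.Helper111.QI.maxn_bound hmax G₀ hnil))

end Pool.Agent.Results.MP_0e32d7_al.IndBase
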